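import Pool.Agent.Q266.RP.Stm3

/-!
Project RP (helper266), job ORDTWO: `x ^ (p ^ 2) = 1`.
-/

set_option autoImplicit false

namespace Pool.Agent.Q76.RPB

open Module Pool.Agent.Q266.RP

/-- Elements `x` with `x ^ (p ^ 2) = 1`. -/
theorem ordtwo : S_DIV → S_QP → S_SCAL → S_DESC → S_ORDTWO := by
  intro hDIV hQP hSCAL hDESC p hpr hp P V _ _ _ _ _ ρ hP hρ x htr hx
  have hdiv := hDIV p hp P V ρ hP hρ
  have hpos : 0 < Nat.card P := Nat.card_pos
  have hp1 : 1 < p := hpr.out.one_lt
  by_cases hnt : Nontrivial P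
  · obtain ⟨q, hq⟩ := hdiv.2 hnt
    obtain ⟨n, hn⟩ := IsPGroup.iff_card.1 hP
    have hqdvd : q ∣ p ^ n := ⟨p * finrank ℂ V ^ 2, by rw [← hn, hq]; ring⟩
    obtain ⟨a, -, ha⟩ := (Nat.dvd_prime_pow hpr.out).1 hqdvd
    rcases Nat.eq_zero_or_pos a with h0 | h0
    · -- the order of `P` is `p * d ^ 2`
      subst h0
      rw [pow_zero] at ha
      rw [ha, mul_one] at hq
      obtain ⟨c, hc⟩ := hQP p hp P V ρ hP hρ hq x htr
      by_cases hc1 : c = 1
      · by_cases hx1 : x = 1
        · rw [hx1, orderOf_one, one_mul]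
          exact hdiv.1
        · have hker : ∀ m ∈ MonoidHom.ker ρ, ρ m = 1 := fun m hm => hm
          have hxN : x ∈ MonoidHom.ker ρ := by
            rw [MonoidHom.mem_ker]
            ext v
            rw [hc v, hc1, one_smul]
            rfl
          obtain ⟨σ, hσ, -⟩ := hDESC.2 P V ρ (MonoidHom.ker ρ) hρ hker
          have hQ : IsPGroup p (P ⧸ MonoidHom.ker ρ) := hP.to_quotient _
          have hd := hDIV p hp (P ⧸ MonoidHom.ker ρ) V σ hQ hσ
          have hcard := Subgroup.card_eq_card_quotient_mul_card_subgroup (MonoidHom.ker ρ)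
          have hNpos : 1 < Nat.card (MonoidHom.ker ρ) := by
            have : Nontrivial (MonoidHom.ker ρ) :=
              ⟨⟨x, hxN⟩, 1, fun h => hx1 (congrArg Subtype.val h)⟩
            exact Finite.one_lt_card
          have hQpos : 0 < Nat.card (P ⧸ MonoidHom.ker ρ) := Nat.card_pos
          have hQtriv : ¬ Nontrivial (P ⧸ MonoidHom.ker ρ) := by
            intro h
            have h1 := Nat.le_of_dvd hQpos (hd.2 h)
            rw [← hq, hcard] at h1
            have h2 : Nat.card (P ⧸ MonoidHom.ker ρ) * 2 ≤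
                Nat.card (P ⧸ MonoidHom.ker ρ) * Nat.card (MonoidHom.ker ρ) :=
              Nat.mul_le_mul_left _ hNpos
            omega
          have hone : Nat.card (P ⧸ MonoidHom.ker ρ) = 1 := by
            have : Subsingleton (P ⧸ MonoidHom.ker ρ) := not_nontrivial_iff_subsingleton.1 hQtriv
            exact Nat.card_unique
          have hd1 : finrank ℂ V ^ 2 = 1 := by
            have := hd.1
            rw [hone] at this
            exact Nat.dvd_one.1 this
          rw [hd1, mul_one]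
          exact orderOf_dvd_natCard x
      · exact hSCAL p hp P V ρ hP hρ x htr ⟨1, c, hc1, fun v => by rw [pow_one]; exact hc v⟩
    · obtain ⟨b, rfl⟩ : ∃ b, a = b + 1 := ⟨a - 1, by omega⟩
      have h1 : orderOf x ∣ p ^ 2 := orderOf_dvd_of_pow_eq_one hx
      have h2 : orderOf x * finrank ℂ V ^ 2 ∣ p ^ 2 * finrank ℂ V ^ 2 := Nat.mul_dvd_mul_right h1 _
      refine h2.trans ⟨p ^ b, ?_⟩
      rw [hq, ha]
      ring
  · have : Subsingleton P := not_nontrivial_iff_subsingleton.1 hnt
    rw [Subsingleton.elim x 1, orderOf_one, one_mul]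
    exact hdiv.1

end Pool.Agent.Q76.RPB

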